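import Mathlib

set_option autoImplicit false

namespace Pool.Agent.MP_0a2729_al

/-- The word length of `g`: its distance from the identity in the Cayley graph of `G` with
respect to `S`. -/
noncomputable def wordLength {G : Type} [Group G] (S : Finset G) (g : G) : ℕ :=
  (SimpleGraph.mulCayley (S : Set G)).dist 1 g

/-- The complement of the ball of radius `r` (an integer; for `r = -1` the ball is empty). -/
def outside {G : Type} [Group G] (S : Finset G) (r : ℤ) : Set G :=
  {h | r < (wordLength S h : ℤ)}

/-- `g` lies in `A`, and its connected component in the subgraph of the Cayley graph induced on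
`A` is infinite. -/
def InInfiniteComponent {G : Type} [Group G] (S : Finset G) (A : Set G) (g : G) : Prop :=
  ∃ hg : g ∈ A,
    (((SimpleGraph.mulCayley (S : Set G)).induce A).connectedComponentMk ⟨g, hg⟩).supp.Infinite

/-- The retreat depth of `g`: the least `k` such that `g` lies in an infinite connected component
of the complement of the ball of radius `|g| - k - 1`. -/
noncomputable def retreatDepth {G : Type} [Group G] (S : Finset G) (g : G) : ℕ :=
  sInf {k : ℕ | InInfiniteComponent S (outside S ((wordLength S g : ℤ) - k - 1)) g}

end Pool.Agent.MP_0a2729_al
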